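import Pool.Agent.Y772.ND.Stm

/-!
# Job ND-FAR (helper179)
-/

set_option autoImplicit false

open Complex MeasureTheory
open scoped ComplexConjugate

namespace Pool.Agent.Y179.ND

open Pool.Agent.Y772.ND

/-- a sum of Gaussians -/
noncomputable def Sg (Z : Finset ℂ) (a : ℂ → ℂ) (β t : ℝ) : ℝ :=
  ∑ z ∈ Z, ‖a z‖ * Real.exp (-β * (t - z.re) ^ 2)

theorem Sg_nonneg (Z : Finset ℂ) (a : ℂ → ℂ) (β t : ℝ) : 0 ≤ Sg Z a β t :=
  Finset.sum_nonneg fun _ _ => mul_nonneg (norm_nonneg _) (Real.exp_pos _).le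

theorem Sg_cont (Z : Finset ℂ) (a : ℂ → ℂ) (β : ℝ) : Continuous (Sg Z a β) := by
  unfold Sg
  fun_prop

theorem Sg_sq (Z : Finset ℂ) (a : ℂ → ℂ) (β t : ℝ) :
    Sg Z a β t ^ 2 ≤ (∑ z ∈ Z, ‖a z‖) * Sg Z a (2 * β) t := by
  unfold Sg
  refine Finset.sum_sq_le_sum_mul_sum_of_sq_le_mul Z (fun _ _ => norm_nonneg _)
    (fun _ _ => mul_nonneg (norm_nonneg _) (Real.exp_pos _).le) fun z _ => le_of_eq ?_
  have : Real.exp (-(2 * β) * (t - z.re) ^ 2) = Real.exp (-β * (t - z.re) ^ 2) ^ 2 := by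
    rw [← Real.exp_nat_mul]
    congr 1
    push_cast
    ring
  rw [this]
  ring

theorem Sg_int (Z : Finset ℂ) (a : ℂ → ℂ) {β : ℝ} (hβ : 0 < β) : Integrable (Sg Z a β) ∧
    ∫ t, Sg Z a β t = (∑ z ∈ Z, ‖a z‖) * Real.sqrt (Real.pi / β) := by
  have h1 : ∀ c : ℝ, Integrable (fun t : ℝ => Real.exp (-β * (t - c) ^ 2)) := fun c =>
    (integrable_exp_neg_mul_sq hβ).comp_sub_right c
  have h2 : ∀ c : ℝ, ∫ t : ℝ, Real.exp (-β * (t - c) ^ 2) = Real.sqrt (Real.pi / β) := by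
    intro c
    rw [← integral_gaussian β]
    exact integral_sub_right_eq_self (fun t : ℝ => Real.exp (-β * t ^ 2)) c
  refine ⟨integrable_finsetSum _ fun z _ => (h1 _).const_mul _, ?_⟩
  unfold Sg
  rw [integral_finsetSum _ fun z _ => (h1 _).const_mul _, Finset.sum_mul]
  refine Finset.sum_congr rfl fun z _ => ?_
  rw [integral_const_mul, h2]

/-- the square of a sum of Gaussians -/
theorem Sg_sq_int (Z : Finset ℂ) (a : ℂ → ℂ) {β : ℝ} (hβ : 1 / 2 ≤ β) {m : ℝ}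
    (hm : ∑ z ∈ Z, ‖a z‖ ≤ m) : Integrable (fun t => Sg Z a β t ^ 2) ∧
    ∫ t, Sg Z a β t ^ 2 ≤ 2 * m ^ 2 := by
  have h0 : 0 ≤ ∑ z ∈ Z, ‖a z‖ := Finset.sum_nonneg fun _ _ => norm_nonneg _
  obtain ⟨h1, h2⟩ := Sg_int Z a (β := 2 * β) (by linarith)
  have h3 : Integrable (fun t => Sg Z a β t ^ 2) := by
    refine (h1.const_mul (∑ z ∈ Z, ‖a z‖)).mono' ((Sg_cont Z a β).pow 2).aestronglyMeasurable ?_
    refine Filter.Eventually.of_forall fun t => ?_
    rw [Real.norm_of_nonneg (sq_nonneg _)]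
    exact Sg_sq Z a β t
  refine ⟨h3, ?_⟩
  calc ∫ t, Sg Z a β t ^ 2 ≤ ∫ t, (∑ z ∈ Z, ‖a z‖) * Sg Z a (2 * β) t :=
        integral_mono h3 (h1.const_mul _) fun t => Sg_sq Z a β t
    _ = (∑ z ∈ Z, ‖a z‖) * ((∑ z ∈ Z, ‖a z‖) * Real.sqrt (Real.pi / (2 * β))) := by
        rw [integral_const_mul, h2]
    _ ≤ m * (m * 2) := by
        have h4 : Real.sqrt (Real.pi / (2 * β)) ≤ 2 := by
          rw [Real.sqrt_le_left (by norm_num)]
          rw [div_le_iff₀ (by linarith)]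
          have := Real.pi_le_four
          nlinarith
        have h5 : (∑ z ∈ Z, ‖a z‖) * Real.sqrt (Real.pi / (2 * β)) ≤ m * 2 :=
          mul_le_mul hm h4 (Real.sqrt_nonneg _) (h0.trans hm)
        exact mul_le_mul hm h5 (by positivity) (h0.trans hm)
    _ = 2 * m ^ 2 := by ring

theorem Az_bd (Z : Finset ℂ) (a : ℂ → ℂ) (u t : ℝ) (hu : 0 ≤ u)
    (hZ : ∀ z ∈ Z, |z.im| ≤ 1 / 2) :
    ‖Az Z a u t‖ ^ 2 ≤ Real.exp (u + 1 / 2) * Sg Z a 1 t ^ 2 := by
  have h1 : ‖Az Z a u t‖ ≤ Real.exp (u / 2 + 1 / 4) * Sg Z a 1 t := by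
    unfold Az Sg
    refine (norm_sum_le _ _).trans ?_
    rw [Finset.mul_sum]
    refine Finset.sum_le_sum fun z hz => ?_
    have him := abs_le.1 (hZ z hz)
    rw [norm_mul, norm_mul, Complex.norm_exp, Complex.norm_exp]
    have e1 : (I * (u : ℂ) * z).re = -(u * z.im) := by
      simp
    have e2 : (-(z - (t : ℂ)) ^ 2).re = -(t - z.re) ^ 2 + z.im ^ 2 := by
      rw [Complex.neg_re, sq, Complex.mul_re]
      simp only [Complex.sub_re, Complex.sub_im, Complex.ofReal_re, Complex.ofReal_im, sub_zero]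
      ring
    rw [e1, e2]
    have h3 : Real.exp (-(u * z.im)) * Real.exp (-(t - z.re) ^ 2 + z.im ^ 2) ≤
        Real.exp (u / 2 + 1 / 4) * Real.exp (-1 * (t - z.re) ^ 2) := by
      rw [← Real.exp_add, ← Real.exp_add]
      apply Real.exp_le_exp.2
      nlinarith
    calc ‖a z‖ * (Real.exp (-(u * z.im)) * Real.exp (-(t - z.re) ^ 2 + z.im ^ 2)) ≤
        ‖a z‖ * (Real.exp (u / 2 + 1 / 4) * Real.exp (-1 * (t - z.re) ^ 2)) :=
          mul_le_mul_of_nonneg_left h3 (norm_nonneg _)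
      _ = _ := by ring
  calc ‖Az Z a u t‖ ^ 2 ≤ (Real.exp (u / 2 + 1 / 4) * Sg Z a 1 t) ^ 2 :=
        pow_le_pow_left₀ (norm_nonneg _) h1 2
    _ = _ := by
        rw [mul_pow, ← Real.exp_nat_mul]
        congr 2
        push_cast
        ring

/-- splitting off the far points -/
theorem Sg_split (Z : Finset ℂ) (a : ℂ → ℂ) (P : ℂ → Prop) [DecidablePred P] {κ t : ℝ}
    (h : ∀ z ∈ Z, ¬ P z → 4 * κ ^ 2 ≤ (t - z.re) ^ 2) :
    Sg Z a 1 t ^ 2 ≤ 2 * Sg (Z.filter P) a 1 t ^ 2 +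
      2 * (Real.exp (-4 * κ ^ 2) * Sg Z a (1 / 2) t ^ 2) := by
  have h1 : Sg Z a 1 t ≤ Sg (Z.filter P) a 1 t + Real.exp (-2 * κ ^ 2) * Sg Z a (1 / 2) t := by
    have e1 : Sg Z a 1 t = Sg (Z.filter P) a 1 t + Sg (Z.filter fun z => ¬ P z) a 1 t := by
      unfold Sg
      rw [Finset.sum_filter_add_sum_filter_not]
    have e2 : Sg (Z.filter fun z => ¬ P z) a 1 t ≤ Real.exp (-2 * κ ^ 2) * Sg Z a (1 / 2) t := by
      calc Sg (Z.filter fun z => ¬ P z) a 1 t ≤
          Real.exp (-2 * κ ^ 2) * Sg (Z.filter fun z => ¬ P z) a (1 / 2) t := by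
            unfold Sg
            rw [Finset.mul_sum]
            refine Finset.sum_le_sum fun z hz => ?_
            obtain ⟨hz1, hz2⟩ := Finset.mem_filter.1 hz
            have h3 : Real.exp (-1 * (t - z.re) ^ 2) ≤
                Real.exp (-2 * κ ^ 2) * Real.exp (-(1 / 2) * (t - z.re) ^ 2) := by
              rw [← Real.exp_add]
              apply Real.exp_le_exp.2
              have := h z hz1 hz2
              linarith
            calc ‖a z‖ * Real.exp (-1 * (t - z.re) ^ 2) ≤ ‖a z‖ *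
                (Real.exp (-2 * κ ^ 2) * Real.exp (-(1 / 2) * (t - z.re) ^ 2)) :=
                  mul_le_mul_of_nonneg_left h3 (norm_nonneg _)
              _ = _ := by ring
        _ ≤ _ := by
            refine mul_le_mul_of_nonneg_left ?_ (Real.exp_pos _).le
            exact Finset.sum_le_sum_of_subset_of_nonneg (Finset.filter_subset _ _)
              fun _ _ _ => mul_nonneg (norm_nonneg _) (Real.exp_pos _).le
    linarith
  have h2 := Sg_nonneg Z a 1 t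
  calc Sg Z a 1 t ^ 2 ≤ (Sg (Z.filter P) a 1 t + Real.exp (-2 * κ ^ 2) * Sg Z a (1 / 2) t) ^ 2 :=
        pow_le_pow_left₀ h2 h1 2
    _ ≤ 2 * Sg (Z.filter P) a 1 t ^ 2 + 2 * (Real.exp (-2 * κ ^ 2) * Sg Z a (1 / 2) t) ^ 2 := by
        nlinarith [sq_nonneg (Sg (Z.filter P) a 1 t - Real.exp (-2 * κ ^ 2) * Sg Z a (1 / 2) t)]
    _ = _ := by
        rw [mul_pow, ← Real.exp_nat_mul]
        congr 4
        push_cast
        ring

theorem t_FAR : P_FAR := by
  refine ⟨16, by norm_num, ?_⟩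
  intro Z a V1 V2 κ n0 N u hκ hV hu hZ hN hn1 hn2
  have hZim : ∀ z ∈ Z, |z.im| ≤ 1 / 2 := fun z hz => (hZ z hz).1
  have hbd := fun t => Az_bd Z a u t hu hZim
  have hcont : Continuous (fun t : ℝ => ‖Az Z a u t‖ ^ 2) := by
    unfold Az
    fun_prop
  have hint : Integrable (fun t : ℝ => ‖Az Z a u t‖ ^ 2) := by
    refine ((Sg_sq_int Z a (β := 1) (by norm_num) hN).1.const_mul
      (Real.exp (u + 1 / 2))).mono' hcont.aestronglyMeasurable ?_
    refine Filter.Eventually.of_forall fun t => ?_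
    rw [Real.norm_of_nonneg (sq_nonneg _)]
    exact hbd t
  refine ⟨hint, ?_⟩
  obtain ⟨i1, j1⟩ := Sg_sq_int _ a (β := 1) (by norm_num) hn1
  obtain ⟨i2, j2⟩ := Sg_sq_int _ a (β := 1) (by norm_num) hn2
  obtain ⟨i3, j3⟩ := Sg_sq_int Z a (β := 1 / 2) le_rfl hN
  set S1 := fun t => Sg (Z.filter fun z => z.re ≤ V1 + 3 * κ) a 1 t ^ 2 with hS1
  set S2 := fun t => Sg (Z.filter fun z => V2 - 3 * κ ≤ z.re) a 1 t ^ 2 with hS2
  set S3 := fun t => Sg Z a (1 / 2) t ^ 2 with hS3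
  set F : ℝ → ℝ := fun t => Real.exp (u + 1 / 2) *
    (2 * S1 t + 2 * S2 t + 2 * (Real.exp (-4 * κ ^ 2) * S3 t)) with hF
  have iF : Integrable F :=
    (((i1.const_mul 2).add (i2.const_mul 2)).add ((i3.const_mul _).const_mul 2)).const_mul _
  have F0 : ∀ t, 0 ≤ F t := by
    intro t
    simp only [hF, hS1, hS2, hS3]
    positivity
  have hle : ∀ t ∈ (Set.Icc (V1 + κ) (V2 - κ))ᶜ, ‖Az Z a u t‖ ^ 2 ≤ F t := by
    intro t ht
    refine (hbd t).trans ?_
    refine mul_le_mul_of_nonneg_left ?_ (Real.exp_pos _).le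
    have p1 : 0 ≤ S1 t := sq_nonneg _
    have p2 : 0 ≤ S2 t := sq_nonneg _
    rw [Set.mem_compl_iff, Set.mem_Icc, not_and_or, not_le, not_le] at ht
    rcases ht with ht | ht
    · have := Sg_split Z a (fun z => z.re ≤ V1 + 3 * κ) (κ := κ) (t := t) (by
        intro z _ hz2
        push Not at hz2
        nlinarith)
      simp only [hS1, hS2, hS3] at *
      linarith
    · have := Sg_split Z a (fun z => V2 - 3 * κ ≤ z.re) (κ := κ) (t := t) (by
        intro z _ hz2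
        push Not at hz2
        nlinarith)
      simp only [hS1, hS2, hS3] at *
      linarith
  have h0n : 0 ≤ N := (Finset.sum_nonneg fun _ _ => norm_nonneg _).trans hN
  calc ∫ t in (Set.Icc (V1 + κ) (V2 - κ))ᶜ, ‖Az Z a u t‖ ^ 2 ≤
      ∫ t in (Set.Icc (V1 + κ) (V2 - κ))ᶜ, F t :=
        setIntegral_mono_on hint.integrableOn iF.integrableOn measurableSet_Icc.compl hle
    _ ≤ ∫ t, F t := setIntegral_le_integral iF (Filter.Eventually.of_forall F0)
    _ = Real.exp (u + 1 / 2) * (2 * (∫ t, S1 t) + 2 * (∫ t, S2 t) +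
          2 * (Real.exp (-4 * κ ^ 2) * ∫ t, S3 t)) := by
        have q1 : Integrable (fun t => 2 * S1 t + 2 * S2 t) :=
          (i1.const_mul 2).add (i2.const_mul 2)
        have q2 : Integrable (fun t => 2 * (Real.exp (-4 * κ ^ 2) * S3 t)) :=
          (i3.const_mul _).const_mul 2
        simp only [hF]
        rw [integral_const_mul, integral_add q1 q2, integral_add (i1.const_mul 2) (i2.const_mul 2),
          integral_const_mul, integral_const_mul, integral_const_mul, integral_const_mul]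
    _ ≤ Real.exp (u + 1 / 2) * (2 * (2 * n0 ^ 2) + 2 * (2 * n0 ^ 2) +
          2 * (Real.exp (-κ ^ 2) * (2 * N ^ 2))) := by
        refine mul_le_mul_of_nonneg_left ?_ (Real.exp_pos _).le
        have e1 : Real.exp (-4 * κ ^ 2) ≤ Real.exp (-κ ^ 2) := by
          apply Real.exp_le_exp.2
          nlinarith [sq_nonneg κ]
        have e2 : Real.exp (-4 * κ ^ 2) * ∫ t, S3 t ≤ Real.exp (-κ ^ 2) * (2 * N ^ 2) :=
          mul_le_mul e1 j3 (integral_nonneg fun t => sq_nonneg _) (Real.exp_pos _).le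
        linarith
    _ ≤ 16 * Real.exp u * (κ * n0 ^ 2 + κ * N ^ 2 * Real.exp (-κ ^ 2)) := by
        have e1 : Real.exp (1 / 2) ≤ 2 := by
          have h1 : Real.exp (1 / 2) ^ 2 ≤ 2 ^ 2 := by
            rw [← Real.exp_nat_mul]
            have := Real.exp_one_lt_d9
            norm_num
            linarith
          exact le_of_sq_le_sq h1 (by norm_num)
        rw [Real.exp_add]
        have e3 : 0 ≤ Real.exp (-κ ^ 2) * N ^ 2 := by positivity
        have e4 : Real.exp (-κ ^ 2) * N ^ 2 ≤ κ * (Real.exp (-κ ^ 2) * N ^ 2) := by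
          nlinarith
        have e5 : n0 ^ 2 ≤ κ * n0 ^ 2 := by nlinarith [sq_nonneg n0]
        have e6 : 2 * (2 * n0 ^ 2) + 2 * (2 * n0 ^ 2) + 2 * (Real.exp (-κ ^ 2) * (2 * N ^ 2)) ≤
            8 * (κ * n0 ^ 2 + κ * N ^ 2 * Real.exp (-κ ^ 2)) := by
          have : κ * N ^ 2 * Real.exp (-κ ^ 2) = κ * (Real.exp (-κ ^ 2) * N ^ 2) := by ring
          rw [this]
          nlinarith [sq_nonneg n0]
        calc _ ≤ Real.exp u * 2 * (8 * (κ * n0 ^ 2 + κ * N ^ 2 * Real.exp (-κ ^ 2))) := by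
              refine mul_le_mul (mul_le_mul_of_nonneg_left e1 (Real.exp_pos _).le) e6
                (by positivity) (by positivity)
          _ = _ := by ring

end Pool.Agent.Y179.ND
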