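import Pool.Agent.Y772.ND.Stm

/-!
# Job ND-GAUS (helper179)
-/

set_option autoImplicit false

open Complex MeasureTheory
open scoped ComplexConjugate

namespace Pool.Agent.Y179.ND

open Pool.Agent.Y772.ND

theorem gs_int (s v : ℝ) : Integrable (fun t : ℝ => ((Real.exp (-(t - s) ^ 2) : ℝ) : ℂ) *
    cexp (I * t * v)) := by
  have h1 : Integrable (fun t : ℝ => Real.exp (-(t - s) ^ 2)) := by
    have := (integrable_exp_neg_mul_sq (b := 1) one_pos).comp_sub_right s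
    simpa using this
  refine h1.mono' ?_ ?_
  · exact (by fun_prop : Continuous fun t : ℝ => ((Real.exp (-(t - s) ^ 2) : ℝ) : ℂ) *
      cexp (I * t * v)).aestronglyMeasurable
  · refine Filter.Eventually.of_forall fun t => ?_
    rw [norm_mul, Complex.norm_real, Real.norm_eq_abs, abs_of_pos (Real.exp_pos _)]
    have : ‖cexp (I * t * v)‖ = 1 := by
      rw [show I * (t : ℂ) * v = ((t * v : ℝ) : ℂ) * I by push_cast; ring]
      exact Complex.norm_exp_ofReal_mul_I _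
    rw [this, mul_one]

theorem gs_val (s v : ℝ) : ∫ t : ℝ, ((Real.exp (-(t - s) ^ 2) : ℝ) : ℂ) * cexp (I * t * v) =
    (Real.sqrt Real.pi : ℂ) * cexp (I * s * v) * (Real.exp (-v ^ 2 / 4) : ℝ) := by
  have h1 : ∫ t : ℝ, ((Real.exp (-(t - s) ^ 2) : ℝ) : ℂ) * cexp (I * t * v) =
      ∫ t : ℝ, ((Real.exp (-((t + s) - s) ^ 2) : ℝ) : ℂ) * cexp (I * ((t + s : ℝ) : ℂ) * v) :=
    (integral_add_right_eq_self (μ := (volume : Measure ℝ))
      (fun t : ℝ => ((Real.exp (-(t - s) ^ 2) : ℝ) : ℂ) * cexp (I * t * v)) s).symm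
  rw [h1]
  have h2 := fourierIntegral_gaussian (b := 1) (by simp) (v : ℂ)
  have h3 : ∀ t : ℝ, ((Real.exp (-((t + s) - s) ^ 2) : ℝ) : ℂ) *
      cexp (I * ((t + s : ℝ) : ℂ) * v) =
      cexp (I * s * v) * (cexp (I * (v : ℂ) * t) * cexp (-1 * (t : ℂ) ^ 2)) := by
    intro t
    rw [Complex.ofReal_exp, ← Complex.exp_add, ← Complex.exp_add, ← Complex.exp_add]
    congr 1
    push_cast
    ring
  simp only [h3]
  rw [integral_const_mul, h2]
  have h4 : ((Real.pi : ℂ) / 1) ^ (1 / 2 : ℂ) = (Real.sqrt Real.pi : ℂ) := by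
    rw [div_one, Real.sqrt_eq_rpow, Complex.ofReal_cpow Real.pi_pos.le]
    norm_num
  rw [h4, Complex.ofReal_exp]
  push_cast
  rw [mul_one]
  ring

theorem gs_exp (v : ℝ) : ((Real.exp (-v ^ 2 / 4) : ℝ) : ℂ) * (Real.exp (-v ^ 2 / 4) : ℝ) =
    (Real.exp (-v ^ 2 / 2) : ℝ) := by
  rw [← Complex.ofReal_mul, ← Real.exp_add]
  congr 2
  ring

theorem gs_half : (((1 / (2 * Real.sqrt Real.pi) : ℝ)) : ℂ) * (Real.sqrt Real.pi : ℂ) = 1 / 2 := by
  have h : Real.sqrt Real.pi ≠ 0 := (Real.sqrt_pos.2 Real.pi_pos).ne'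
  rw [← Complex.ofReal_mul]
  have : 1 / (2 * Real.sqrt Real.pi) * Real.sqrt Real.pi = 1 / 2 := by
    field_simp
  rw [this]
  norm_num

theorem gs_M (L : ℝ) (N : ℕ) (b : ℕ → ℂ) (u s : ℝ) :
    ∫ t : ℝ, ((Real.exp (-(t - s) ^ 2) : ℝ) : ℂ) * Mz L N b u t =
      1 / 2 * ((L : ℂ) * cexp (I * s * u) * (Real.exp (-u ^ 2 / 2) : ℝ) -
        ∑ n ∈ Finset.Icc 1 N, b n * (Real.sqrt n : ℂ)⁻¹ *
          cexp (I * s * ((u - Real.log n : ℝ) : ℂ)) *
            (Real.exp (-(u - Real.log n) ^ 2 / 2) : ℝ)) := by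
  have h1 : ∀ t : ℝ, ((Real.exp (-(t - s) ^ 2) : ℝ) : ℂ) * Mz L N b u t =
      ((1 / (2 * Real.sqrt Real.pi) : ℝ) : ℂ) *
        (((L : ℂ) * (Real.exp (-u ^ 2 / 4) : ℝ)) *
          (((Real.exp (-(t - s) ^ 2) : ℝ) : ℂ) * cexp (I * t * u)) -
        ∑ n ∈ Finset.Icc 1 N, (b n * (Real.sqrt n : ℂ)⁻¹ *
          (Real.exp (-(u - Real.log n) ^ 2 / 4) : ℝ)) *
          (((Real.exp (-(t - s) ^ 2) : ℝ) : ℂ) *
            cexp (I * t * ((u - Real.log n : ℝ) : ℂ)))) := by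
    intro t
    unfold Mz
    rw [← mul_assoc, mul_comm ((Real.exp (-(t - s) ^ 2) : ℝ) : ℂ), mul_assoc]
    congr 1
    rw [mul_sub, Finset.mul_sum]
    congr 1
    · ring
    · refine Finset.sum_congr rfl fun n _ => ?_
      rw [Complex.ofReal_sub]
      ring
  simp only [h1]
  rw [integral_const_mul, integral_sub, integral_const_mul, integral_finsetSum, gs_val]
  · have h2 : ∀ n ∈ Finset.Icc 1 N, ∫ t : ℝ, (b n * (Real.sqrt n : ℂ)⁻¹ *
          (Real.exp (-(u - Real.log n) ^ 2 / 4) : ℝ)) *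
          (((Real.exp (-(t - s) ^ 2) : ℝ) : ℂ) *
            cexp (I * t * ((u - Real.log n : ℝ) : ℂ))) =
        (Real.sqrt Real.pi : ℂ) * (b n * (Real.sqrt n : ℂ)⁻¹ *
          cexp (I * s * ((u - Real.log n : ℝ) : ℂ)) *
            (Real.exp (-(u - Real.log n) ^ 2 / 2) : ℝ)) := by
      intro n _
      rw [integral_const_mul, gs_val, ← gs_exp]
      ring
    rw [Finset.sum_congr rfl h2, ← Finset.mul_sum, ← gs_half, ← gs_exp]
    ring
  · intro n _
    exact (gs_int s _).const_mul _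
  · exact (gs_int s u).const_mul _
  · exact integrable_finsetSum _ fun n _ => (gs_int s _).const_mul _

theorem t_GAUS : P_GAUS := by
  intro R hR Λ L hΛ N hN b s
  -- the inner function
  have h1 : ∀ α : ℝ, (R α : ℂ) * (cexp (-(I * (Λ * α) * s)) *
      ∫ t : ℝ, ((Real.exp (-(t - s) ^ 2) : ℝ) : ℂ) * Mz L N b (Λ * α) t) =
      ∑ n ∈ Finset.Icc 1 N, (1 / 2 * ((if n = 1 then (L : ℂ) else 0) - b n *
        (Real.sqrt n : ℂ)⁻¹) * cexp (-(I * s * Real.log n))) *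
          ((R α * Real.exp (-(Λ * α - Real.log n) ^ 2 / 2) : ℝ) : ℂ) := by
    intro α
    rw [gs_M]
    have h2 : ∑ n ∈ Finset.Icc 1 N, (1 / 2 * ((if n = 1 then (L : ℂ) else 0) - b n *
        (Real.sqrt n : ℂ)⁻¹) * cexp (-(I * s * Real.log n))) *
          ((R α * Real.exp (-(Λ * α - Real.log n) ^ 2 / 2) : ℝ) : ℂ) =
        ∑ n ∈ Finset.Icc 1 N, (1 / 2 * (if n = 1 then (L : ℂ) else 0) *
          cexp (-(I * s * Real.log n))) *
          ((R α * Real.exp (-(Λ * α - Real.log n) ^ 2 / 2) : ℝ) : ℂ) -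
        ∑ n ∈ Finset.Icc 1 N, (1 / 2 * (b n *
        (Real.sqrt n : ℂ)⁻¹) * cexp (-(I * s * Real.log n))) *
          ((R α * Real.exp (-(Λ * α - Real.log n) ^ 2 / 2) : ℝ) : ℂ) := by
      rw [← Finset.sum_sub_distrib]
      refine Finset.sum_congr rfl fun n _ => ?_
      ring
    have h3 : ∑ n ∈ Finset.Icc 1 N, (1 / 2 * (if n = 1 then (L : ℂ) else 0) *
          cexp (-(I * s * Real.log n))) *
          ((R α * Real.exp (-(Λ * α - Real.log n) ^ 2 / 2) : ℝ) : ℂ) =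
        1 / 2 * (L : ℂ) * ((R α * Real.exp (-(Λ * α) ^ 2 / 2) : ℝ) : ℂ) := by
      rw [Finset.sum_eq_single_of_mem 1 (Finset.mem_Icc.2 ⟨le_rfl, hN⟩)]
      · rw [if_pos rfl, Nat.cast_one, Real.log_one, Complex.ofReal_zero, mul_zero, neg_zero,
          Complex.exp_zero, sub_zero, mul_one]
      · intro n _ hn
        rw [if_neg hn]
        ring
    rw [h2, h3]
    have e1 : cexp (-(I * (Λ * α) * s)) * cexp (I * s * ((Λ * α : ℝ) : ℂ)) = 1 := by
      rw [← Complex.exp_add, ← Complex.exp_zero]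
      congr 1
      push_cast
      ring
    have e2 : ∀ n : ℕ, cexp (-(I * (Λ * α) * s)) *
        cexp (I * s * ((Λ * α - Real.log n : ℝ) : ℂ)) = cexp (-(I * s * Real.log n)) := by
      intro n
      rw [← Complex.exp_add]
      congr 1
      push_cast
      ring
    rw [mul_sub, mul_sub, mul_sub]
    congr 1
    · rw [Complex.ofReal_mul (R α)]
      calc _ = (R α : ℂ) * (1 / 2) * L * (cexp (-(I * (Λ * α) * s)) *
              cexp (I * s * ((Λ * α : ℝ) : ℂ))) * (Real.exp (-(Λ * α) ^ 2 / 2) : ℝ) := by ring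
        _ = _ := by rw [e1]; ring
    · rw [Finset.mul_sum, Finset.mul_sum, Finset.mul_sum]
      refine Finset.sum_congr rfl fun n _ => ?_
      rw [← e2 n, Complex.ofReal_mul (R α)]
      ring
  simp only [h1]
  rw [intervalIntegral.integral_finsetSum]
  · rw [Finset.mul_sum]
    refine Finset.sum_congr rfl fun n _ => ?_
    rw [intervalIntegral.integral_const_mul, intervalIntegral.integral_ofReal]
    unfold dz Wz
    push_cast
    ring
  · intro n _
    apply Continuous.intervalIntegrable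
    fun_prop

end Pool.Agent.Y179.ND
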