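import Pool.Agent.Y772.ND.Stm

/-!
# Job ND-RANK (helper179)
-/

set_option autoImplicit false

open Complex MeasureTheory
open scoped ComplexConjugate

namespace Pool.Agent.Y179.ND

open Pool.Agent.Y772.ND

/-- from the bounds with a parameter to the product -/
theorem amgm {I B n S : ℝ} (hI : 0 ≤ I) (hB : 0 ≤ B) (hn : 0 ≤ n) (hS : 0 ≤ S)
    (h : ∀ r : ℝ, 0 < r → I ≤ B / 2 * (r * n + S / r)) : I ^ 2 ≤ B ^ 2 * n * S := by
  -- for every `ε > 0`
  have key : ∀ ε : ℝ, 0 < ε → I ^ 2 ≤ B ^ 2 * (n + ε) * (S + ε) := by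
    intro ε hε
    have h1 : 0 < n + ε := by linarith
    have h2 : 0 < S + ε := by linarith
    obtain ⟨p, hp, hp2⟩ : ∃ p : ℝ, 0 < p ∧ p ^ 2 = n + ε :=
      ⟨Real.sqrt (n + ε), Real.sqrt_pos.2 h1, Real.sq_sqrt h1.le⟩
    obtain ⟨q, hq, hq2⟩ : ∃ q : ℝ, 0 < q ∧ q ^ 2 = S + ε :=
      ⟨Real.sqrt (S + ε), Real.sqrt_pos.2 h2, Real.sq_sqrt h2.le⟩
    have h3 := h (q / p) (div_pos hq hp)
    have h4 : q / p * n + S / (q / p) ≤ 2 * (p * q) := by
      have e1 : q / p * n ≤ q * p := by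
        rw [div_mul_eq_mul_div, div_le_iff₀ hp]
        nlinarith
      have e2 : S / (q / p) ≤ q * p := by
        rw [div_div_eq_mul_div, div_le_iff₀ hq]
        nlinarith
      linarith
    have h5 : I ≤ B * (p * q) := by
      calc I ≤ B / 2 * (q / p * n + S / (q / p)) := h3
        _ ≤ B / 2 * (2 * (p * q)) := mul_le_mul_of_nonneg_left h4 (by positivity)
        _ = _ := by ring
    calc I ^ 2 ≤ (B * (p * q)) ^ 2 := pow_le_pow_left₀ hI h5 2
      _ = B ^ 2 * (n + ε) * (S + ε) := by rw [← hp2, ← hq2]; ring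
  have hlim : Filter.Tendsto (fun ε : ℝ => B ^ 2 * (n + ε) * (S + ε)) (nhdsWithin 0 (Set.Ioi 0))
      (nhds (B ^ 2 * (n + 0) * (S + 0))) := by
    have : Continuous (fun ε : ℝ => B ^ 2 * (n + ε) * (S + ε)) := by fun_prop
    exact this.continuousAt.tendsto.mono_left nhdsWithin_le_nhds
  have := ge_of_tendsto hlim (Filter.eventually_of_mem self_mem_nhdsWithin fun ε hε => key ε hε)
  simpa using this

section

variable {E : Type} [NormedAddCommGroup E] [InnerProductSpace ℂ E]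
  {φ : ℂ → ℂ} {k : ℂ → E} (hk : ∀ z w, inner ℂ (k z) (k w) = φ (w - conj z))
  (hev : ∀ z, φ (-z) = φ z) (Z : Finset ℂ) (a : ℂ → ℂ)

/-- the finite rank operator -/
noncomputable def Top (k : ℂ → E) (Z : Finset ℂ) (a : ℂ → ℂ) (f : E) : E :=
  ∑ z ∈ Z, (a z * inner ℂ (k (conj z)) f) • k z

/-- reindexing by conjugation -/
theorem reidx {M : Type*} [AddCommMonoid M] {Z : Finset ℂ} (hZ : ∀ z ∈ Z, conj z ∈ Z)
    (F : ℂ → M) : ∑ z ∈ Z, F z = ∑ z ∈ Z, F (conj z) := by
  refine Finset.sum_nbij' (fun z => conj z) (fun z => conj z) hZ hZ ?_ ?_ ?_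
  · intro z _; simp
  · intro z _; simp
  · intro z _; simp

variable {Z a}

theorem Top_symm (hZ : ∀ z ∈ Z, conj z ∈ Z) (ha : ∀ z ∈ Z, a (conj z) = conj (a z)) (f g : E) :
    inner ℂ f (Top k Z a g) = inner ℂ (Top k Z a f) g := by
  unfold Top
  rw [inner_sum, sum_inner]
  conv_rhs => rw [reidx hZ]
  refine Finset.sum_congr rfl fun z hz => ?_
  rw [inner_smul_right, inner_smul_left, map_mul, inner_conj_symm, Complex.conj_conj, ha z hz,
    Complex.conj_conj]
  ring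

include hk hev in
theorem Top_val (t : ℝ) : ∑ z ∈ Z, a z * φ (z - t) ^ 2 = inner ℂ (k t) (Top k Z a (k t)) := by
  unfold Top
  rw [inner_sum]
  refine Finset.sum_congr rfl fun z _ => ?_
  rw [inner_smul_right, hk, hk, Complex.conj_ofReal, Complex.conj_conj, ← hev (z - t), neg_sub]
  ring

end

theorem rank0 {E : Type} [NormedAddCommGroup E] [InnerProductSpace ℂ E]
    {φ : ℂ → ℂ} {k : ℂ → E} (hk : ∀ z w, inner ℂ (k z) (k w) = φ (w - conj z))
    (hev : ∀ z, φ (-z) = φ z) (hφ : Continuous φ) {B : ℝ} (hB : 0 ≤ B)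
    (hyp : ∀ (Z : Finset ℂ) (c : ℂ → ℂ),
      Integrable (fun t : ℝ => ‖∑ z ∈ Z, c z * φ (t - z)‖ ^ 2) ∧
      ∫ t : ℝ, ‖∑ z ∈ Z, c z * φ (t - z)‖ ^ 2 ≤
        B * (∑ z ∈ Z, ∑ w ∈ Z, c z * conj (c w) * φ (conj w - z)).re)
    {Z : Finset ℂ} {a : ℂ → ℂ} (hZ : ∀ z ∈ Z, conj z ∈ Z)
    (ha : ∀ z ∈ Z, a (conj z) = conj (a z)) :
    Integrable (fun t : ℝ => ‖∑ z ∈ Z, a z * φ (z - t) ^ 2‖) ∧
    (∫ t : ℝ, ‖∑ z ∈ Z, a z * φ (z - t) ^ 2‖) ^ 2 ≤
      B ^ 2 * Z.card * (∑ z ∈ Z, ∑ w ∈ Z, a z * a w * φ (z - w) ^ 2).re := by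
  classical
  set W : Submodule ℂ E := Submodule.span ℂ (Set.range fun z : Z => k (conj (z : ℂ))) with hW
  have : FiniteDimensional ℂ W := by
    rw [hW]
    exact FiniteDimensional.span_of_finite ℂ (Set.finite_range _)
  have hdim : Module.finrank ℂ W ≤ Z.card := by
    have := finrank_range_le_card (R := ℂ) (fun z : Z => k (conj (z : ℂ)))
    rwa [Fintype.card_coe] at this
  have hkW : ∀ z ∈ Z, k (conj z) ∈ W := fun z hz => Submodule.subset_span ⟨⟨z, hz⟩, rfl⟩
  have hkW' : ∀ z ∈ Z, k z ∈ W := by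
    intro z hz
    have := hkW (conj z) (hZ z hz)
    rwa [Complex.conj_conj] at this
  have hTW : ∀ f, Top k Z a f ∈ W := fun f =>
    Submodule.sum_mem _ fun z hz => Submodule.smul_mem _ _ (hkW' z hz)
  -- Bessel for elements of `W`
  have hbes : ∀ f ∈ W, Integrable (fun t : ℝ => ‖inner ℂ f (k t)‖ ^ 2) ∧
      ∫ t : ℝ, ‖inner ℂ f (k t)‖ ^ 2 ≤ B * ‖f‖ ^ 2 := by
    intro f hf
    obtain ⟨c, hc⟩ : ∃ c : ℂ → ℂ, f = ∑ z ∈ Z, conj (c z) • k (conj z) := by
      obtain ⟨d, hd⟩ := (Submodule.mem_span_range_iff_exists_fun ℂ).1 hf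
      refine ⟨fun z => if h : z ∈ Z then conj (d ⟨z, h⟩) else 0, ?_⟩
      rw [← hd, ← Finset.sum_coe_sort Z]
      refine Finset.sum_congr rfl fun z _ => ?_
      beta_reduce
      rw [dif_pos z.2, Complex.conj_conj]
    have e1 : ∀ t : ℝ, inner ℂ f (k t) = ∑ z ∈ Z, c z * φ (t - z) := by
      intro t
      rw [hc, sum_inner]
      refine Finset.sum_congr rfl fun z _ => ?_
      rw [inner_smul_left, hk, Complex.conj_conj, Complex.conj_conj]
    have e2 : (∑ z ∈ Z, ∑ w ∈ Z, c z * conj (c w) * φ (conj w - z)).re = ‖f‖ ^ 2 := by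
      have h1 : inner ℂ f f = ∑ z ∈ Z, ∑ w ∈ Z, c z * conj (c w) * φ (conj w - z) := by
        conv_lhs => rw [hc]
        rw [sum_inner]
        refine Finset.sum_congr rfl fun z _ => ?_
        rw [inner_sum]
        refine Finset.sum_congr rfl fun w _ => ?_
        rw [inner_smul_left, inner_smul_right, hk, Complex.conj_conj, Complex.conj_conj]
        ring
      rw [← h1, inner_self_eq_norm_sq_to_K]
      norm_cast
    simp only [e1]
    rw [← e2]
    exact hyp Z c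
  set e := stdOrthonormalBasis ℂ W with he
  -- expansion
  have hexp : ∀ t : ℝ, ∑ z ∈ Z, a z * φ (z - t) ^ 2 =
      ∑ i, inner ℂ (k t) (e i : E) * inner ℂ (Top k Z a (e i : E)) (k t) := by
    intro t
    rw [Top_val hk hev]
    have h1 := e.sum_repr' ⟨Top k Z a (k t), hTW _⟩
    have h2 : Top k Z a (k t) = ∑ i, inner ℂ (e i : E) (Top k Z a (k t)) • (e i : E) := by
      have := congrArg (fun x : W => (x : E)) h1
      simp only [Submodule.coe_sum, Submodule.coe_smul, Submodule.coe_inner] at this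
      exact this.symm
    conv_lhs => rw [h2]
    rw [inner_sum]
    refine Finset.sum_congr rfl fun i _ => ?_
    rw [inner_smul_right, Top_symm hZ ha]
    ring
  have hnorm : ∀ i, ‖(e i : E)‖ = 1 := fun i => by
    rw [Submodule.norm_coe]; exact e.orthonormal.1 i
  -- the pointwise bound
  have hpt : ∀ r : ℝ, 0 < r → ∀ t : ℝ, ‖∑ z ∈ Z, a z * φ (z - t) ^ 2‖ ≤
      ∑ i, (r / 2 * ‖inner ℂ (e i : E) (k t)‖ ^ 2 +
        1 / (2 * r) * ‖inner ℂ (Top k Z a (e i : E)) (k t)‖ ^ 2) := by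
    intro r hr t
    rw [hexp]
    refine (norm_sum_le _ _).trans (Finset.sum_le_sum fun i _ => ?_)
    rw [norm_mul, norm_inner_symm]
    generalize ‖inner ℂ (e i : E) (k t)‖ = x
    generalize ‖inner ℂ (Top k Z a (e i : E)) (k t)‖ = y
    have : r / 2 * x ^ 2 + 1 / (2 * r) * y ^ 2 - x * y = (r * x - y) ^ 2 / (2 * r) := by
      field_simp
      ring
    have h2 : 0 ≤ (r * x - y) ^ 2 / (2 * r) := by positivity
    linarith
  have hb1 := fun i => hbes _ (e i).2
  have hb2 := fun i => hbes _ (hTW (e i : E))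
  have hi : ∀ r : ℝ, Integrable (fun t : ℝ =>
      ∑ i, (r / 2 * ‖inner ℂ (e i : E) (k t)‖ ^ 2 +
        1 / (2 * r) * ‖inner ℂ (Top k Z a (e i : E)) (k t)‖ ^ 2)) := fun r =>
    integrable_finsetSum _ fun i _ => ((hb1 i).1.const_mul _).add ((hb2 i).1.const_mul _)
  have hcont : Continuous (fun t : ℝ => ‖∑ z ∈ Z, a z * φ (z - t) ^ 2‖) := by
    fun_prop
  have hint : Integrable (fun t : ℝ => ‖∑ z ∈ Z, a z * φ (z - t) ^ 2‖) := by
    refine (hi 1).mono' hcont.aestronglyMeasurable (Filter.Eventually.of_forall fun t => ?_)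
    rw [norm_norm]
    exact hpt 1 one_pos t
  refine ⟨hint, ?_⟩
  -- the Hilbert-Schmidt norm
  have hS : ((∑ i, ‖Top k Z a (e i : E)‖ ^ 2 : ℝ) : ℂ) =
      ∑ z ∈ Z, ∑ w ∈ Z, a z * a w * φ (z - w) ^ 2 := by
    have h1 : ∀ i, ((‖Top k Z a (e i : E)‖ ^ 2 : ℝ) : ℂ) = ∑ z ∈ Z, ∑ w ∈ Z,
        (conj (a z) * a w * inner ℂ (k z) (k w)) *
          (inner ℂ (k (conj w)) (e i : E) * inner ℂ (e i : E) (k (conj z))) := by
      intro i
      have : ((‖Top k Z a (e i : E)‖ ^ 2 : ℝ) : ℂ) =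
          inner ℂ (Top k Z a (e i : E)) (Top k Z a (e i : E)) := by
        rw [inner_self_eq_norm_sq_to_K]; norm_cast
      rw [this]
      unfold Top
      rw [sum_inner]
      refine Finset.sum_congr rfl fun z _ => ?_
      rw [inner_sum]
      refine Finset.sum_congr rfl fun w _ => ?_
      rw [inner_smul_left, inner_smul_right, map_mul, inner_conj_symm]
      ring
    rw [Complex.ofReal_sum, Finset.sum_congr rfl fun i _ => h1 i, Finset.sum_comm]
    conv_rhs => rw [reidx hZ]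
    refine Finset.sum_congr rfl fun z hz => ?_
    rw [Finset.sum_comm]
    refine Finset.sum_congr rfl fun w hw => ?_
    rw [← Finset.mul_sum]
    have h2 := e.sum_inner_mul_inner (⟨k (conj w), hkW w hw⟩ : W) ⟨k (conj z), hkW z hz⟩
    simp only [Submodule.coe_inner] at h2
    rw [h2, hk, hk, Complex.conj_conj, ha z hz, ← hev (w - conj z), neg_sub]
    ring
  have hS' : (∑ z ∈ Z, ∑ w ∈ Z, a z * a w * φ (z - w) ^ 2).re =
      ∑ i, ‖Top k Z a (e i : E)‖ ^ 2 := by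
    rw [← hS, Complex.ofReal_re]
  rw [hS']
  have hSn : 0 ≤ ∑ i, ‖Top k Z a (e i : E)‖ ^ 2 := Finset.sum_nonneg fun _ _ => sq_nonneg _
  have key := amgm (I := ∫ t : ℝ, ‖∑ z ∈ Z, a z * φ (z - t) ^ 2‖) (B := B)
    (n := (Module.finrank ℂ W : ℝ)) (S := ∑ i, ‖Top k Z a (e i : E)‖ ^ 2)
    (integral_nonneg fun _ => norm_nonneg _) hB (Nat.cast_nonneg _) hSn (by
      intro r hr
      calc ∫ t : ℝ, ‖∑ z ∈ Z, a z * φ (z - t) ^ 2‖ ≤ ∫ t : ℝ,
          ∑ i, (r / 2 * ‖inner ℂ (e i : E) (k t)‖ ^ 2 +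
            1 / (2 * r) * ‖inner ℂ (Top k Z a (e i : E)) (k t)‖ ^ 2) :=
            integral_mono hint (hi r) (hpt r hr)
        _ = ∑ i, (r / 2 * (∫ t : ℝ, ‖inner ℂ (e i : E) (k t)‖ ^ 2) +
            1 / (2 * r) * ∫ t : ℝ, ‖inner ℂ (Top k Z a (e i : E)) (k t)‖ ^ 2) := by
            have q : ∀ i ∈ (Finset.univ : Finset (Fin (Module.finrank ℂ W))),
                Integrable (fun t : ℝ => r / 2 * ‖inner ℂ (e i : E) (k t)‖ ^ 2 +
                1 / (2 * r) * ‖inner ℂ (Top k Z a (e i : E)) (k t)‖ ^ 2) := fun i _ =>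
              ((hb1 i).1.const_mul _).add ((hb2 i).1.const_mul _)
            rw [integral_finsetSum _ q]
            refine Finset.sum_congr rfl fun i _ => ?_
            rw [integral_add ((hb1 i).1.const_mul _) ((hb2 i).1.const_mul _),
              integral_const_mul, integral_const_mul]
        _ ≤ ∑ i, (r / 2 * (B * 1) + 1 / (2 * r) * (B * ‖Top k Z a (e i : E)‖ ^ 2)) := by
            refine Finset.sum_le_sum fun i _ => add_le_add ?_ ?_
            · refine mul_le_mul_of_nonneg_left ?_ (by positivity)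
              have := (hb1 i).2
              rwa [hnorm, one_pow] at this
            · exact mul_le_mul_of_nonneg_left (hb2 i).2 (by positivity)
        _ = B / 2 * (r * (Module.finrank ℂ W : ℝ) +
            (∑ i, ‖Top k Z a (e i : E)‖ ^ 2) / r) := by
            rw [Finset.sum_add_distrib, Finset.sum_const, Finset.card_univ, Fintype.card_fin,
              nsmul_eq_mul, ← Finset.mul_sum, ← Finset.mul_sum]
            field_simp)
  refine key.trans ?_
  refine mul_le_mul_of_nonneg_right ?_ hSn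
  refine mul_le_mul_of_nonneg_left ?_ (sq_nonneg _)
  exact_mod_cast hdim

theorem t_RANK : P_RANK := by
  classical
  intro E _ _ φ k hk hev hφ B hB hyp Z a hZ ha
  have hZ' : ∀ z ∈ Z.filter (fun z => a z ≠ 0), conj z ∈ Z.filter (fun z => a z ≠ 0) := by
    intro z hz
    obtain ⟨h1, h2⟩ := Finset.mem_filter.1 hz
    refine Finset.mem_filter.2 ⟨hZ z h1, ?_⟩
    rw [ha z h1]
    simpa using h2
  have ha' : ∀ z ∈ Z.filter (fun z => a z ≠ 0), a (conj z) = conj (a z) := fun z hz =>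
    ha z (Finset.mem_filter.1 hz).1
  have key := rank0 hk hev hφ hB hyp hZ' ha'
  have e1 : ∀ t : ℝ, ∑ z ∈ Z.filter (fun z => a z ≠ 0), a z * φ (z - t) ^ 2 =
      ∑ z ∈ Z, a z * φ (z - t) ^ 2 := by
    intro t
    refine Finset.sum_filter_of_ne fun z _ h => ?_
    intro h0
    apply h
    rw [h0, zero_mul]
  have e2 : ∑ z ∈ Z.filter (fun z => a z ≠ 0), ∑ w ∈ Z.filter (fun z => a z ≠ 0),
      a z * a w * φ (z - w) ^ 2 = ∑ z ∈ Z, ∑ w ∈ Z, a z * a w * φ (z - w) ^ 2 := by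
    rw [Finset.sum_filter_of_ne]
    · refine Finset.sum_congr rfl fun z _ => ?_
      refine Finset.sum_filter_of_ne fun w _ h => ?_
      intro h0
      apply h
      rw [h0]
      ring
    · intro z _ h h0
      apply h
      refine Finset.sum_eq_zero fun w _ => ?_
      rw [h0]
      ring
  simp only [e1] at key
  rw [e2] at key
  exact key

end Pool.Agent.Y179.ND
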